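import Mathlib

namespace Pool.Agent.Results.MP_97409a_pr.NoWait
open MeasureTheory

/-- increasing rearrangement -/
noncomputable def rearr {k : ℕ} (v : Fin k → ℝ) : Fin k → ℝ := v ∘ Tuple.sort v

/-- one Kiefer-Wolfowitz step with service time `s` and interarrival time `t` -/
noncomputable def step {k : ℕ} (w : Fin k → ℝ) (s t : ℝ) : Fin k → ℝ :=
  rearr fun j => max ((if j.val = 0 then w j + s else w j) - t) 0

/-- `π` is a stationary law of the workload vector: a probability measure on nonnegative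
increasing vectors such that `step W S T` has law `π` for independent `W ∼ π`, `S ∼ μS`, `T ∼ μT` -/
def Stationary {k : ℕ} (μT μS : Measure ℝ) (π : Measure (Fin k → ℝ)) : Prop :=
  IsProbabilityMeasure π ∧ (∀ᵐ w ∂π, Monotone w ∧ ∀ j, 0 ≤ w j) ∧
    ∀ A : Set (Fin k → ℝ), MeasurableSet A →
      π A = (π.prod (μS.prod μT)) {x | step x.1 x.2.1 x.2.2 ∈ A}

/-- law of a nonnegative random variable with finite second moment -/
def Admissible (μ : Measure ℝ) : Prop :=
  IsProbabilityMeasure μ ∧ (∀ᵐ x ∂μ, 0 ≤ x) ∧ MemLp id 2 μ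

lemma rearr_two (a b : ℝ) (h : b ≤ a) : rearr ![a, b] = ![b, a] := by
  have hm : Monotone (![a, b] ∘ Equiv.swap (0 : Fin 2) 1) := by
    intro i j hij
    fin_cases i <;> fin_cases j <;> simp_all
  have := (Tuple.comp_sort_eq_comp_iff_monotone (f := ![a, b]) (σ := Equiv.swap 0 1)).2 hm
  rw [rearr, ← this]
  funext i; fin_cases i <;> simp

lemma step_eq (w s : ℝ) (hw : w ≤ 1) : step ![0, w] s 1 = ![0, max (s - 1) 0] := by
  have : (fun j : Fin 2 => max ((if j.val = 0 then ![0, w] j + s else ![0, w] j) - 1) 0)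
      = ![max (s - 1) 0, 0] := by
    funext i; fin_cases i <;> simp [hw]
  rw [step, this, rearr_two _ _ (le_max_right _ _)]

theorem result : ¬ ∀ (k : ℕ) (hk : 2 ≤ k) (μT μS : Measure ℝ), Admissible μT → Admissible μS →
    ∀ ρ : ℝ, ρ = (∫ s, s ∂μS) / (k * ∫ t, t ∂μT) → 1 - (k : ℝ)⁻¹ ≤ ρ → ρ < 1 →
    ∀ π : Measure (Fin k → ℝ), Stationary μT μS π → Integrable (fun w => w ⟨0, by omega⟩) π →
      (1 - k * (1 - ρ)) * max ((∫ s, s ^ 2 ∂μS) - (2 * k - 1) * (∫ s, s ∂μS) * (∫ t, t ∂μT)
          + k * (k - 1) * (∫ t, t ∂μT) ^ 2) 0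
        ≤ 2 * k ^ 2 * ρ * (1 - ρ) * (∫ t, t ∂μT) * ∫ w, w ⟨0, by omega⟩ ∂π := by
  intro h
  set μS : Measure ℝ := (2⁻¹ : NNReal) • Measure.dirac (1 / 2) + (2⁻¹ : NNReal) • Measure.dirac 2
    with hS
  set π : Measure (Fin 2 → ℝ) :=
    (2⁻¹ : NNReal) • Measure.dirac ![0, 0] + (2⁻¹ : NNReal) • Measure.dirac ![0, 1] with hπ
  have iS : ∀ f : ℝ → ℝ, Integrable f μS := fun f =>
    ((integrable_dirac (by simp)).smul_measure_nnreal).add_measure
      ((integrable_dirac (by simp)).smul_measure_nnreal)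
  have iπ : ∀ f : (Fin 2 → ℝ) → ℝ, Integrable f π := fun f =>
    ((integrable_dirac (by simp)).smul_measure_nnreal).add_measure
      ((integrable_dirac (by simp)).smul_measure_nnreal)
  have eS : ∀ f : ℝ → ℝ, ∫ s, f s ∂μS = 2⁻¹ * f (1 / 2) + 2⁻¹ * f 2 := fun f => by
    rw [hS, integral_add_measure ((integrable_dirac (by simp)).smul_measure_nnreal)
      ((integrable_dirac (by simp)).smul_measure_nnreal)]
    simp [integral_smul_nnreal_measure, NNReal.smul_def]
  have eπ : ∀ f : (Fin 2 → ℝ) → ℝ, ∫ s, f s ∂π = 2⁻¹ * f ![0, 0] + 2⁻¹ * f ![0, 1] := fun f => by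
    rw [hπ, integral_add_measure ((integrable_dirac (by simp)).smul_measure_nnreal)
      ((integrable_dirac (by simp)).smul_measure_nnreal)]
    simp [integral_smul_nnreal_measure, NNReal.smul_def]
  have pS : IsProbabilityMeasure μS := ⟨by simp [hS, ENNReal.inv_two_add_inv_two]⟩
  have pπ : IsProbabilityMeasure π := ⟨by simp [hπ, ENNReal.inv_two_add_inv_two]⟩
  have := h 2 le_rfl (Measure.dirac 1) μS
    ⟨inferInstance, by simp, (memLp_two_iff_integrable_sq aestronglyMeasurable_id).2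
      (integrable_dirac (by simp))⟩
    ⟨pS, by
      rw [hS, ae_add_measure_iff]
      exact ⟨Measure.ae_smul_measure (by simp) _, Measure.ae_smul_measure (by simp) _⟩,
      (memLp_two_iff_integrable_sq aestronglyMeasurable_id).2 (iS _)⟩
    (5 / 8) (by rw [eS]; norm_num) (by norm_num) (by norm_num) π
    ⟨pπ, by
      have m : ∀ a : ℝ, 0 ≤ a → Monotone ![0, a] ∧ ∀ j, 0 ≤ ![0, a] j := fun a ha =>
        ⟨fun i j hij => by fin_cases i <;> fin_cases j <;> simp_all,
          fun j => by fin_cases j <;> simp [ha]⟩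
      rw [hπ, ae_add_measure_iff]
      exact ⟨Measure.ae_smul_measure (by rw [ae_dirac_eq]; exact m 0 le_rfl) _,
        Measure.ae_smul_measure (by rw [ae_dirac_eq]; exact m 1 zero_le_one) _⟩,
      fun A _ => by
        have s1 : ∀ w : ℝ, w ≤ 1 → step ![0, w] 2⁻¹ 1 = ![0, 0] := fun w hw => by
          rw [step_eq _ _ hw]; norm_num
        have s2 : ∀ w : ℝ, w ≤ 1 → step ![0, w] 2 1 = ![0, 1] := fun w hw => by
          rw [step_eq _ _ hw]; norm_num
        have t1 := s1 0 zero_le_one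
        have t2 := s1 1 le_rfl
        have t3 := s2 0 zero_le_one
        have t4 := s2 1 le_rfl
        simp only [hπ, hS, Measure.add_prod, Measure.prod_add, Measure.prod_smul_left,
          Measure.prod_smul_right, Measure.dirac_prod_dirac, Measure.add_apply,
          Measure.smul_apply, Measure.dirac_apply]
        by_cases h0 : ![0, 0] ∈ A <;> by_cases h1 : ![0, 1] ∈ A <;>
          simp [Set.indicator, h0, h1, t1, t2, t3, t4, ENNReal.smul_def, ← mul_add,
            ENNReal.inv_two_add_inv_two]⟩ (iπ _)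
  rw [eS, eS, eπ] at this
  norm_num at this

end Pool.Agent.Results.MP_97409a_pr.NoWait
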